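import Mathlib

/-!
# An abstract selection theorem

`Col z v` is the colour of `v` when the parameters are `z`.  It depends on finitely many parameters
only, and changing one parameter changes finitely many colours.  Then there are parameters `z` such
that each active vertex `u` has infinitely many (allowed) neighbours of colour other than `z u`.
-/

set_option autoImplicit false

namespace UnfT

open Classical

variable {V : Type*}

section

variable (Col : (V → Bool) → V → Bool) (Nb : V → Set V) (A : Set V)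

/-- Forced parameters. -/
def Forced (W : Set V) (w : V → Bool) : Prop :=
  W ⊆ A ∧ ∀ z : V → Bool, (∀ i ∈ W, z i = w i) → ∀ i ∈ W, {v | v ∈ Nb i ∧ Col z v ≠ w i}.Infinite

theorem exists_max_forced :
    ∃ W w, Forced Col Nb A W w ∧ ∀ W' w', Forced Col Nb A W' w' → W ⊆ W' →
      (∀ v ∈ W, w' v = w v) → W' ⊆ W := by
  let α := {p : Set V × (V → Bool) // Forced Col Nb A p.1 p.2}
  let r : α → α → Prop := fun p q => p.1.1 ⊆ q.1.1 ∧ ∀ v ∈ p.1.1, q.1.2 v = p.1.2 v
  have hz : ∃ m : α, ∀ a, r m a → r a m := by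
    refine exists_maximal_of_chains_bounded (r := r) ?_ ?_
    · intro C hC
      rcases C.eq_empty_or_nonempty with rfl | hCne
      · exact ⟨⟨(∅, fun _ => false), Set.empty_subset _, fun z _ i hi =>
          absurd hi (Set.notMem_empty i)⟩, by simp⟩
      set S : Set V := ⋃ p ∈ C, p.1.1 with hS
      let τ : V → Bool := fun v => if h : ∃ p ∈ C, v ∈ p.1.1 then h.choose.1.2 v else false
      have hτ : ∀ p ∈ C, ∀ v ∈ p.1.1, τ v = p.1.2 v := by
        intro p hp v hv
        have h : ∃ p ∈ C, v ∈ p.1.1 := ⟨p, hp, hv⟩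
        have e : τ v = h.choose.1.2 v := dif_pos h
        rw [e]
        have h1 := h.choose_spec
        by_cases hpq : h.choose = p
        · rw [hpq]
        · rcases hC h1.1 hp hpq with h2 | h2
          · exact (h2.2 v h1.2).symm
          · exact h2.2 v hv
      have hsub : ∀ p ∈ C, p.1.1 ⊆ S := fun p hp =>
        Set.subset_biUnion_of_mem (u := fun p : α => p.1.1) hp
      have hmem : ∀ v ∈ S, ∃ p ∈ C, v ∈ p.1.1 := fun v hv => by simpa [hS] using hv
      refine ⟨⟨(S, τ), ?_, ?_⟩, fun p hp => ⟨hsub p hp, hτ p hp⟩⟩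
      · intro v hv
        obtain ⟨p, hp, hpv⟩ := hmem v hv
        exact p.2.1 hpv
      · intro z hz i hi
        obtain ⟨p, hp, hpi⟩ := hmem i hi
        have h1 := p.2.2 z (fun j hj => (hz j (hsub p hp hj)).trans (hτ p hp j hj)) i hpi
        refine h1.mono ?_
        rintro v ⟨hv1, hv2⟩
        refine ⟨hv1, ?_⟩
        show Col z v ≠ τ i
        rw [hτ p hp i hpi]
        exact hv2
    · intro a b c hab hbc
      exact ⟨hab.1.trans hbc.1, fun v hv => (hbc.2 v (hab.1 hv)).trans (hab.2 v hv)⟩
  obtain ⟨m, hm⟩ := hz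
  exact ⟨m.1.1, m.1.2, m.2, fun S' τ' h1 h2 h3 => (hm ⟨(S', τ'), h1⟩ ⟨h2, h3⟩).1⟩

end

variable {Col : (V → Bool) → V → Bool} {Nb : V → Set V} {A : Set V}

/-- Changing finitely many parameters. -/
lemma col_change (h2 : ∀ j z, {v | Col (Function.update z j (!(z j))) v ≠ Col z v}.Finite)
    (z z' : V → Bool) (T : Finset V) (hT : ∀ v, v ∉ T → z' v = z v) :
    {v | Col z' v ≠ Col z v}.Finite := by
  induction T using Finset.induction_on generalizing z with
  | empty =>
    have : z' = z := funext fun v => hT v (by simp)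
    rw [this]
    simp
  | insert a T ha ih =>
    by_cases haz : z' a = z a
    · refine ih z fun v hv => ?_
      by_cases hva : v = a
      · rw [hva, haz]
      · exact hT v (by simp [hva, hv])
    · set z1 := Function.update z a (!(z a)) with hz1
      have h3 : {v | Col z' v ≠ Col z1 v}.Finite := by
        refine ih z1 fun v hv => ?_
        by_cases hva : v = a
        · rw [hva, hz1, Function.update_self]
          cases h4 : z' a <;> cases h5 : z a <;> simp_all
        · rw [hz1, Function.update_of_ne hva]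
          exact hT v (by simp [hva, hv])
      refine (h3.union (h2 a z)).subset ?_
      intro v hv
      by_contra hn
      rw [Set.mem_union, not_or] at hn
      have e1 : Col z' v = Col z1 v := by
        by_contra h; exact hn.1 h
      have e2 : Col z1 v = Col z v := by
        by_contra h; exact hn.2 h
      exact hv (e1.trans e2)

theorem select [Countable V]
    (h1 : ∀ v, ∃ T : Finset V, ∀ z z' : V → Bool, (∀ t ∈ T, z t = z' t) → Col z v = Col z' v)
    (h2 : ∀ j z, {v | Col (Function.update z j (!(z j))) v ≠ Col z v}.Finite)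
    (h3 : ∀ u ∈ A, (Nb u).Infinite) :
    ∃ z : V → Bool, ∀ u ∈ A, {v | v ∈ Nb u ∧ Col z v ≠ z u}.Infinite := by
  obtain ⟨W, w, hF, hmax⟩ := exists_max_forced Col Nb A
  -- density
  have key : ∀ u ∈ A, u ∉ W → ∀ c : Bool, ∀ z0 : V → Bool, (∀ i ∈ W, z0 i = w i) →
      ∀ T : Finset V, ∃ z : V → Bool, (∀ i ∈ W, z i = w i) ∧ (∀ t ∈ T, z t = z0 t) ∧
        {v | v ∈ Nb u ∧ Col z v ≠ c}.Infinite := by
    intro u huA huW c z0 hz0 T
    by_contra hcon
    push Not at hcon
    have hall : ∀ z : V → Bool, (∀ i ∈ W, z i = w i) → {v | v ∈ Nb u ∧ Col z v ≠ c}.Finite := by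
      intro z hz
      set z' : V → Bool := fun v => if v ∈ T then z0 v else z v with hz'
      have h4 : {v | v ∈ Nb u ∧ Col z' v ≠ c}.Finite := by
        refine hcon z' (fun i hi => ?_) (fun t ht => if_pos ht)
        rw [hz']
        simp only
        split_ifs
        · exact hz0 i hi
        · exact hz i hi
      have h5 := col_change h2 z z' T (fun v hv => if_neg hv)
      refine (h4.union h5).subset ?_
      rintro v ⟨hv1, hv2⟩
      by_cases h6 : Col z' v = Col z v
      · exact Or.inl ⟨hv1, by rw [h6]; exact hv2⟩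
      · exact Or.inr h6
    have hup : ∀ i ∈ W, Function.update w u (!c) i = w i := fun i hi => by
      refine Function.update_of_ne ?_ _ _
      rintro rfl
      exact huW hi
    have := hmax (insert u W) (Function.update w u (!c)) ⟨Set.insert_subset huA hF.1, ?_⟩
      (Set.subset_insert _ _) hup
    · exact huW (this (Set.mem_insert _ _))
    · intro z hz i hi
      have hzW : ∀ i ∈ W, z i = w i := fun i hi =>
        (hz i (Set.mem_insert_of_mem _ hi)).trans (hup i hi)
      rcases hi with rfl | hi
      · rw [Function.update_self]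
        have h4 := hall z hzW
        refine ((h3 i huA).sdiff h4).mono ?_
        rintro v ⟨hv1, hv2⟩
        refine ⟨hv1, ?_⟩
        have h5 : Col z v = c := by
          by_contra h
          exact hv2 ⟨hv1, h⟩
        rw [h5]
        cases c <;> simp
      · rw [hup i hi]
        exact hF.2 z hzW i hi
  -- Baire category
  let ext : ({v : V // v ∉ W} → Bool) → V → Bool := fun f v =>
    if h : v ∈ W then w v else f ⟨v, h⟩
  have hextW : ∀ f, ∀ i ∈ W, ext f i = w i := fun f i hi => dif_pos hi
  have hext : ∀ f, ∀ v (h : v ∉ W), ext f v = f ⟨v, h⟩ := fun f v h => dif_neg h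
  let O : {u : V // u ∈ A ∧ u ∉ W} × Bool × Finset V → Set ({v : V // v ∉ W} → Bool) := fun p =>
    ⋃ v ∈ {v : V | v ∈ Nb p.1.1 ∧ v ∉ p.2.2}, {f | Col (ext f) v ≠ p.2.1}
  have hO : ∀ p, IsOpen (O p) := by
    intro p
    refine isOpen_biUnion fun v _ => ?_
    obtain ⟨T, hT⟩ := h1 v
    rw [isOpen_pi_iff]
    intro f hf
    refine ⟨T.subtype (fun v => v ∉ W), fun t => {f t}, fun t _ => ⟨isOpen_discrete _, rfl⟩, ?_⟩
    intro g hg
    rw [Set.mem_pi] at hg
    show Col (ext g) v ≠ p.2.1
    rw [hT (ext g) (ext f)]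
    · exact hf
    · intro t ht
      by_cases htW : t ∈ W
      · rw [hextW g t htW, hextW f t htW]
      · rw [hext g t htW, hext f t htW]
        exact hg ⟨t, htW⟩ (by simpa using ht)
  have hD : ∀ p, Dense (O p) := by
    intro p
    rw [dense_iff_inter_open]
    rintro U hU ⟨f, hf⟩
    obtain ⟨I, u, hu, hsub⟩ := isOpen_pi_iff.1 hU f hf
    obtain ⟨z, hz1, hz2, hz3⟩ := key p.1.1 p.1.2.1 p.1.2.2 p.2.1 (ext f) (hextW f)
      (I.map (Function.Embedding.subtype _))
    set g : {v : V // v ∉ W} → Bool := fun v => z v.1 with hg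
    have hgz : ext g = z := by
      funext v
      by_cases hv : v ∈ W
      · rw [hextW g v hv, hz1 v hv]
      · rw [hext g v hv]
    refine ⟨g, hsub ?_, ?_⟩
    · rw [Set.mem_pi]
      intro i hi
      have h4 : g i = f i := by
        rw [hg]
        simp only
        rw [hz2 i.1 (by
          rw [Finset.mem_map]
          exact ⟨i, hi, rfl⟩), hext f i.1 i.2]
      rw [h4]
      exact (hu i hi).2
    · obtain ⟨v, hv, hvn⟩ := (hz3.sdiff p.2.2.finite_toSet).nonempty
      refine Set.mem_biUnion (show v ∈ {v : V | v ∈ Nb p.1.1 ∧ v ∉ p.2.2} from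
        ⟨hv.1, by simpa using hvn⟩) ?_
      show Col (ext g) v ≠ p.2.1
      rw [hgz]
      exact hv.2
  have hBaire : BaireSpace ({v : V // v ∉ W} → Bool) := inferInstance
  obtain ⟨f, hf⟩ := (dense_iInter_of_isOpen hO hD).nonempty
  rw [Set.mem_iInter] at hf
  refine ⟨ext f, fun u huA => ?_⟩
  by_cases huW : u ∈ W
  · rw [hextW f u huW]
    exact hF.2 (ext f) (hextW f) u huW
  · intro hfin
    have h := hf (⟨u, huA, huW⟩, ext f u, hfin.toFinset)
    simp only [O, Set.mem_iUnion] at h
    obtain ⟨v, ⟨hv1, hv2⟩, hv3⟩ := h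
    exact hv2 ((Set.Finite.mem_toFinset hfin).2 ⟨hv1, hv3⟩)

end UnfT
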