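import Pool.Agent.Work.MP_1aab6d_co_tu.Sel
import Pool.Agent.Work.MP_1aab6d_co_tu.Abs

/-!
# The choice of the colours of the vertices of infinite degree
-/

set_option autoImplicit false

namespace UnfT

open Finset Classical Unf

variable {V : Type*} {G : SimpleGraph V} {X : Set V} {f : V → ℕ}

/-- The relevant neighbours. -/
def Nb (G : SimpleGraph V) (X : Set V) (f : V → ℕ) (u : V) : Set V :=
  {v | G.Adj u v ∧ ((Calm G X v ∧ u ∈ Own G X f v) ∨ (Inf G v ∧ v ∉ X))}

/-- The calm vertices from which `j` is a kept neighbour. -/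
def Kp (G : SimpleGraph V) (X : Set V) (f : V → ℕ) (j : V) : Set V :=
  {v | Calm G X v ∧ j ∈ IN G X v ∧ j ∉ Own G X f v}

lemma kp_finite (hf : Function.Injective f)
    (hpair : ∀ u u', Inf G u → Inf G u' → u ∉ X → u' ∉ X → u ≠ u' →
      {v | G.Adj u v ∧ G.Adj u' v ∧ Calm G X v ∧ ¬ Light G X v}.Finite) (j : V) :
    (Kp G X f j).Finite := by
  by_cases hj : Inf G j ∧ j ∉ X
  · have h1 : {j' | f j' < f j}.Finite := (Set.finite_Iio (f j)).preimage hf.injOn
    have h2 : (⋃ j' ∈ {j' | f j' < f j}, {v | (Inf G j' ∧ j' ∉ X) ∧ G.Adj j v ∧ G.Adj j' v ∧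
        Calm G X v ∧ ¬ Light G X v}).Finite := by
      refine h1.biUnion fun j' hj' => ?_
      by_cases h3 : Inf G j' ∧ j' ∉ X
      · refine (hpair j j' hj.1 h3.1 hj.2 h3.2 ?_).subset ?_
        · rintro rfl
          exact lt_irrefl (f j) hj'
        · rintro v ⟨_, hv⟩
          exact hv
      · refine Set.finite_empty.subset ?_
        rintro v ⟨hv, _⟩
        exact absurd hv h3
    refine h2.subset ?_
    rintro v ⟨h3, h4, h5⟩
    have h6 : ¬ Light G X v := kept_nonlight h4 h5
    have h7 : ∃ w' ∈ IN G X v, f w' < f j := by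
      by_contra hcon
      push Not at hcon
      exact h5 ⟨h4, Or.inr hcon⟩
    obtain ⟨j', hj', hlt⟩ := h7
    exact Set.mem_biUnion (show j' ∈ {j' | f j' < f j} from hlt)
      ⟨⟨hj'.2.1, hj'.2.2⟩, h4.1.symm, hj'.1.symm, h3, h6⟩
  · refine Set.finite_empty.subset ?_
    rintro v ⟨_, h4, _⟩
    exact absurd ⟨h4.2.1, h4.2.2⟩ hj

lemma par_finite {x : V} (hx : Calm G X x) : (Par G X f (comp G x)).Finite := by
  have h : (⋃ a ∈ {a | a ∈ comp G x ∧ ¬ Light G X a}, G.neighborSet a).Finite :=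
    hx.2.biUnion fun a ha => Set.not_infinite.1 (comp_not_inf hx.1 ha.1)
  refine h.subset ?_
  rintro j ⟨v, hv, hj1, hj2⟩
  exact Set.mem_biUnion (show v ∈ {a | a ∈ comp G x ∧ ¬ Light G X a} from
    ⟨hv, kept_nonlight hj1 hj2⟩) hj1.1

variable {φ : V → Bool} {q : Set V → (V → Bool) → Finset V}

theorem choose_inf [Countable V] (hf : Function.Injective f)
    (hpair : ∀ u u', Inf G u → Inf G u' → u ∉ X → u' ∉ X → u ≠ u' →
      {v | G.Adj u v ∧ G.Adj u' v ∧ Calm G X v ∧ ¬ Light G X v}.Finite) (hX : X.Finite) :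
    ∃ z : V → Bool, ∀ u, Inf G u → u ∉ X →
      {x | G.Adj u x ∧ (Inf G x ∨ Calm G X x)}.Infinite →
      {v | v ∈ Nb G X f u ∧ Cl G X f φ q z v ≠ z u}.Infinite := by
  have h := select (V := V) (Col := Cl G X f φ q) (Nb := Nb G X f)
    (A := {u | Inf G u ∧ u ∉ X ∧ {x | G.Adj u x ∧ (Inf G x ∨ Calm G X x)}.Infinite}) ?_ ?_ ?_
  · obtain ⟨z, hz⟩ := h
    exact ⟨z, fun u h1 h2 h3 => hz u ⟨h1, h2, h3⟩⟩
  · intro v
    by_cases hv : Calm G X v
    · refine ⟨(par_finite (f := f) hv).toFinset, fun z z' hzz => ?_⟩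
      rw [Cl_calm hv, Cl_calm hv, res_congr (W := Par G X f (comp G v)) (z := z) (z' := z')]
      intro t ht
      exact hzz t ((par_finite (f := f) hv).mem_toFinset.2 ht)
    · refine ⟨{v}, fun z z' hzz => ?_⟩
      unfold Cl
      rw [if_neg hv, if_neg hv, hzz v (Finset.mem_singleton_self v)]
  · intro j z
    set z' := Function.update z j (!(z j)) with hz'
    have h1 : ({j} ∪ ⋃ v' ∈ Kp G X f j,
        ((q (comp G v') (res (Par G X f (comp G v')) z) : Set V) ∪
          (q (comp G v') (res (Par G X f (comp G v')) z') : Set V))).Finite := by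
      refine (Set.finite_singleton j).union ((kp_finite hf hpair j).biUnion fun v' _ => ?_)
      exact (Finset.finite_toSet _).union (Finset.finite_toSet _)
    refine h1.subset ?_
    intro v hv
    have hv' : Cl G X f φ q z' v ≠ Cl G X f φ q z v := hv
    by_cases hcalm : Calm G X v
    · right
      have hjP : j ∈ Par G X f (comp G v) := by
        by_contra hjP
        refine hv' ?_
        rw [Cl_calm hcalm, Cl_calm hcalm,
          res_congr (W := Par G X f (comp G v)) (z := z') (z' := z)]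
        intro t ht
        refine Function.update_of_ne ?_ _ _
        rintro rfl
        exact hjP ht
      obtain ⟨v', hv'C, hj1, hj2⟩ := hjP
      have hv'calm : Calm G X v' := hcalm.of_mem hv'C
      have hcomp : comp G v' = comp G v := comp_eq hcalm.1 hv'C
      refine Set.mem_biUnion (show v' ∈ Kp G X f j from ⟨hv'calm, hj1, hj2⟩) ?_
      rw [hcomp]
      by_contra hn
      rw [Set.mem_union, not_or] at hn
      refine hv' ?_
      rw [Cl_calm hcalm, Cl_calm hcalm, flp_of_not_mem (by simpa using hn.2),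
        flp_of_not_mem (by simpa using hn.1)]
    · left
      by_contra hvj
      refine hv' ?_
      unfold Cl
      rw [if_neg hcalm, if_neg hcalm]
      split_ifs
      · rfl
      · exact Function.update_of_ne hvj _ _
  · rintro u ⟨h1, h2, h3⟩
    have h4 : ({x | G.Adj u x ∧ (Inf G x ∨ Calm G X x)} \ (X ∪ Kp G X f u)).Infinite :=
      h3.sdiff (hX.union (kp_finite hf hpair u))
    refine h4.mono ?_
    rintro x ⟨⟨h5, h6⟩, h7⟩
    rw [Set.mem_union, not_or] at h7
    refine ⟨h5, ?_⟩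
    by_cases hxI : Inf G x
    · exact Or.inr ⟨hxI, h7.1⟩
    · have hc : Calm G X x := h6.resolve_left hxI
      left
      refine ⟨hc, ?_⟩
      by_contra ho
      exact h7.2 ⟨hc, ⟨h5.symm, h1, h2⟩, ho⟩

end UnfT
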