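import Pool.Agent.Work.MP_1aab6d_co.Defs

/-!
# Light and calm vertices
-/

set_option autoImplicit false

namespace UnfT

variable {V : Type*} (G : SimpleGraph V)

/-- The neighbours of `v` of infinite degree which lie outside `X`. -/
def IN (X : Set V) (v : V) : Set V := {w | G.Adj v w ∧ Unf.Inf G w ∧ w ∉ X}

/-- `v` has either at most one neighbour of infinite degree outside `X`, or even degree and at most
two such neighbours. -/
def Light (X : Set V) (v : V) : Prop :=
  (IN G X v).encard ≤ 1 ∨ ((IN G X v).encard ≤ 2 ∧ Even (G.neighborSet v).ncard)

/-- `x` has finite degree and all but finitely many vertices of its component in the subgraph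
induced by the vertices of finite degree are light. -/
def Calm (X : Set V) (x : V) : Prop :=
  ¬ Unf.Inf G x ∧ {a | a ∈ Unf.comp G x ∧ ¬ Light G X a}.Finite

end UnfT
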