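import Pool.Agent.Work.MP_1aab6d_co_tu.Process

/-!
# Unfriendly partitions of countable graphs with calm components
-/

set_option autoImplicit false

namespace UnfT

open Finset Classical Unf UnfL

variable {V : Type*}

lemma even_sum_eps (c : V → Bool) (v : V) (N : Finset V) :
    Even (∑ y ∈ N, eps Set.univ c v y) ↔ Even (N.card) := by
  induction N using Finset.induction_on with
  | empty => simp
  | insert a N ha ih =>
    rw [Finset.sum_insert ha, Finset.card_insert_of_notMem ha, UnfT.eps_univ]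
    split_ifs
    · rw [add_comm, Int.even_add_one, ih, Nat.even_add_one]
    · rw [neg_add_eq_sub, Int.even_sub_one, ih, Nat.even_add_one]

/-- Sums at a light vertex. -/
lemma light_sum {c : V → Bool} {v : V} {N N1 : Finset V} (hsub : N1 ⊆ N) {B : Finset V}
    (hB : ∀ y ∈ N, y ∉ N1 → y ∈ B) (hlight : B.card ≤ 1 ∨ (B.card ≤ 2 ∧ Even N.card))
    (he : 0 ≤ ∑ y ∈ N1, eps Set.univ c v y) :
    ((∃ u ∈ B, c u ≠ c v) → 0 ≤ ∑ y ∈ N, eps Set.univ c v y) ∧
    ((∀ u ∈ B, c u ≠ c v) → 0 ≤ ∑ y ∈ N, eps Set.univ c v y) ∧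
    ((∀ u ∈ B, c u = c v) → (∑ y ∈ N, eps Set.univ c v y < 0) →
      ∑ y ∈ N1, eps Set.univ c v y = 0) := by
  have hsplit : ∑ y ∈ N, eps Set.univ c v y
      = ∑ y ∈ N \ N1, eps Set.univ c v y + ∑ y ∈ N1, eps Set.univ c v y :=
    (Finset.sum_sdiff hsub).symm
  have hDB : N \ N1 ⊆ B := fun y hy => hB y (mem_sdiff.1 hy).1 (mem_sdiff.1 hy).2
  have hcard : (N \ N1).card ≤ B.card := Finset.card_le_card hDB
  have hge : -((N \ N1).card : ℤ) ≤ ∑ y ∈ N \ N1, eps Set.univ c v y := by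
    have : ∑ _y ∈ N \ N1, (-1 : ℤ) ≤ ∑ y ∈ N \ N1, eps Set.univ c v y :=
      Finset.sum_le_sum fun y _ => neg_one_le_eps _ _ _ _
    simpa using this
  have hev := even_sum_eps c v N
  refine ⟨?_, ?_, ?_⟩
  · rintro ⟨u, huB, hu⟩
    -- the sum over `N \ N1` is at least `-(B.card - 1)`
    have h1 : -((B.card : ℤ) - 1) ≤ ∑ y ∈ N \ N1, eps Set.univ c v y := by
      by_cases huN : u ∈ N \ N1
      · rw [← Finset.add_sum_erase _ _ huN, UnfT.eps_univ, if_pos hu]
        have h2 : ∑ _y ∈ (N \ N1).erase u, (-1 : ℤ)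
            ≤ ∑ y ∈ (N \ N1).erase u, eps Set.univ c v y :=
          Finset.sum_le_sum fun y _ => neg_one_le_eps _ _ _ _
        rw [Finset.sum_const, nsmul_eq_mul, mul_neg, mul_one, Finset.card_erase_of_mem huN] at h2
        have h3 : 0 < (N \ N1).card := Finset.card_pos.2 ⟨u, huN⟩
        push_cast [Nat.cast_sub (Nat.succ_le_of_lt h3)] at h2
        have : ((N \ N1).card : ℤ) ≤ B.card := by exact_mod_cast hcard
        omega
      · have h2 : (N \ N1).card ≤ (B.erase u).card := by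
          refine Finset.card_le_card fun y hy => ?_
          rw [Finset.mem_erase]
          exact ⟨fun h => huN (h ▸ hy), hDB hy⟩
        rw [Finset.card_erase_of_mem huB] at h2
        have h3 : 0 < B.card := Finset.card_pos.2 ⟨u, huB⟩
        omega
    rcases hlight with h | ⟨h, hN⟩
    · have : (B.card : ℤ) ≤ 1 := by exact_mod_cast h
      linarith
    · have h2 : (B.card : ℤ) ≤ 2 := by exact_mod_cast h
      have h3 := hev.2 hN
      obtain ⟨k, hk⟩ := h3
      omega
  · intro hall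
    have h1 : 0 ≤ ∑ y ∈ N \ N1, eps Set.univ c v y := by
      refine Finset.sum_nonneg fun y hy => ?_
      rw [UnfT.eps_univ, if_pos (hall y (hDB hy))]
      norm_num
    linarith
  · intro hall hneg
    rcases hlight with h | ⟨h, hN⟩
    · have : (B.card : ℤ) ≤ 1 := by exact_mod_cast h
      have : ((N \ N1).card : ℤ) ≤ B.card := by exact_mod_cast hcard
      omega
    · have h2 : (B.card : ℤ) ≤ 2 := by exact_mod_cast h
      have : ((N \ N1).card : ℤ) ≤ B.card := by exact_mod_cast hcard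
      obtain ⟨k, hk⟩ := hev.2 hN
      omega


section

variable (G : SimpleGraph V) (X : Set V) (f : V → ℕ) (σ z : V → Bool)

/-- Condition for keeping an edge. -/
def KB (v u : V) : Prop := Calm G X v → u ∈ Own G X f v → σ v ≠ z u

/-- The graph with the kept edges and the protected owned edges. -/
def G1 : SimpleGraph V where
  Adj a b := G.Adj a b ∧ KB G X f σ z a b ∧ KB G X f σ z b a
  symm := ⟨fun _ _ h => ⟨h.1.symm, h.2.2, h.2.1⟩⟩
  loopless := ⟨fun a h => G.loopless.irrefl a h.1⟩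

end

variable {G : SimpleGraph V} {X : Set V} {f : V → ℕ} {σ z : V → Bool}

lemma G1_le (a b : V) (h : (G1 G X f σ z).Adj a b) : G.Adj a b := h.1

/-- The infinite-degree vertices of the auxiliary graph. -/
lemma inf_G1 (hσ : ∀ v, Inf G v → v ∉ X → σ v = z v)
    (hz : ∀ u, Inf G u → u ∉ X → {x | G.Adj u x ∧ (Inf G x ∨ Calm G X x)}.Infinite →
      {v | v ∈ Nb G X f u ∧ σ v ≠ z u}.Infinite) {u : V} (hu : Inf G u) :
    Inf (G1 G X f σ z) u := by
  by_cases huX : u ∈ X
  · refine Set.Infinite.mono ?_ hu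
    intro x hx
    exact ⟨hx, fun hc _ => absurd hu hc.1, fun _ ho => absurd huX (own_sub ho).2.2⟩
  by_cases hA : {x | G.Adj u x ∧ (Inf G x ∨ Calm G X x)}.Infinite
  · refine Set.Infinite.mono ?_ (hz u hu huX hA)
    rintro v ⟨⟨h1, _⟩, h3⟩
    exact ⟨h1, fun hc _ => absurd hu hc.1, fun _ _ => h3⟩
  · refine Set.Infinite.mono ?_ (Set.Infinite.sdiff hu (Set.not_infinite.1 hA))
    rintro x ⟨h1, h2⟩
    have h1' : G.Adj u x := h1
    exact ⟨h1', fun hc _ => absurd hu hc.1, fun hc _ => absurd ⟨h1', Or.inr hc⟩ h2⟩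

lemma inf_G1_iff (hσ : ∀ v, Inf G v → v ∉ X → σ v = z v)
    (hz : ∀ u, Inf G u → u ∉ X → {x | G.Adj u x ∧ (Inf G x ∨ Calm G X x)}.Infinite →
      {v | v ∈ Nb G X f u ∧ σ v ≠ z u}.Infinite) {u : V} :
    Inf (G1 G X f σ z) u ↔ Inf G u :=
  ⟨fun h => Inf.of_le G1_le h, fun h => inf_G1 hσ hz h⟩

/-- The starting partial colouring is strong. -/
lemma FS_start (hσ : ∀ v, Inf G v → v ∉ X → σ v = z v)
    (hz : ∀ u, Inf G u → u ∉ X → {x | G.Adj u x ∧ (Inf G x ∨ Calm G X x)}.Infinite →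
      {v | v ∈ Nb G X f u ∧ σ v ≠ z u}.Infinite)
    (hgr : ∀ x, Calm G X x → Gr (Gk G X f) (comp G x) σ) :
    FS (G1 G X f σ z) {v | Inf G v ∨ Calm G X v} σ := by
  intro Q hQ
  set R : Set V := {v | Inf G v ∨ Calm G X v} with hR
  have hQF : ∀ x ∈ Q, ¬ Inf (G1 G X f σ z) x := fun x hx => (hQ x hx).2
  have hcalm : ∀ x ∈ Q, Calm G X x := by
    intro x hx
    rcases (hQ x hx).1 with h | h
    · exact absurd (inf_G1 hσ hz h) (hQF x hx)
    · exact h
  have h0 := gr_all (Γ := Gk G X f) Gk_le hgr Q.card Q le_rfl hcalm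
  refine h0.trans ?_
  unfold en
  refine Finset.sum_le_sum fun x hx => ?_
  have hcx := hcalm x hx
  have hk : ¬ Inf (Gk G X f) x := fun h => hcx.1 (Inf.of_le Gk_le h)
  have hmemR : ∀ y, G.Adj x y → y ∈ R := by
    intro y hy
    by_cases hyI : Inf G y
    · exact Or.inl hyI
    · exact Or.inr (hcx.of_adj hy hyI)
  have h1 : ∑ y ∈ nb (Gk G X f) x \ Q, eps Set.univ σ x y
      = ∑ y ∈ nb (Gk G X f) x \ Q, eps R σ x y := by
    refine Finset.sum_congr rfl fun y hy => ?_
    rw [mem_sdiff, mem_nb _ hk] at hy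
    have hyR := hmemR y hy.1.1
    unfold eps
    simp only [hyR, Set.mem_univ]
  rw [h1]
  refine Finset.sum_le_sum_of_subset_of_nonneg ?_ ?_
  · intro y hy
    rw [mem_sdiff, mem_nb _ hk] at hy
    rw [mem_sdiff, mem_nb _ (hQF x hx)]
    exact ⟨⟨hy.1.1, fun hc ho => absurd ⟨hc, ho⟩ hy.1.2.1,
      fun hc ho => absurd ⟨hc, ho⟩ hy.1.2.2⟩, hy.2⟩
  · intro y hy hyn
    rw [mem_sdiff, mem_nb _ (hQF x hx)] at hy
    rw [mem_sdiff, mem_nb _ hk] at hyn
    obtain ⟨⟨ha, hb, hc⟩, hd⟩ := hy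
    have hown : y ∈ Own G X f x := by
      by_contra ho
      refine hyn ⟨⟨ha, fun h => ho h.2, fun h => ?_⟩, hd⟩
      exact hcx.1 (own_inf h.2)
    have hne := hb hcx hown
    have hyI := own_inf hown
    rw [eps_eq_one (show y ∈ R from Or.inl hyI)]
    · norm_num
    · rw [hσ y hyI (own_sub hown).2.2]
      exact fun h => hne h.symm

theorem main [Countable V] (G : SimpleGraph V) (X : Set V) (hX : X.Finite)
    (hpair : ∀ u u', Inf G u → Inf G u' → u ∉ X → u' ∉ X → u ≠ u' →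
      {v | G.Adj u v ∧ G.Adj u' v ∧ Calm G X v ∧ ¬ Light G X v}.Finite)
    (h : {u | Inf G u ∧ ¬ {x | G.Adj u x ∧ (Inf G x ∨ Calm G X x)}.Infinite}.Finite) :
    ∃ c : V → Bool, Unfriendly G c := by
  obtain ⟨f, hf⟩ := exists_injective_nat V
  -- the ground state
  have hFS0 : FS (H0 G X) ∅ (fun _ => false) := by
    intro Q hQ
    have : Q = ∅ := by
      rw [Finset.eq_empty_iff_forall_notMem]
      intro x hx
      exact (hQ x hx).1
    rw [this, en_empty]
  obtain ⟨φ, -, hφ⟩ := exists_total hFS0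
  obtain ⟨q, hq⟩ := exists_mod (f := f) hφ
  obtain ⟨z, hz⟩ := choose_inf (φ := φ) (q := q) hf hpair hX
  set σ := Cl G X f φ q z with hσdef
  have hσ : ∀ v, Inf G v → v ∉ X → σ v = z v := fun v h1 h2 => Cl_inf h1 h2
  have hgr : ∀ x, Calm G X x → Gr (Gk G X f) (comp G x) σ := fun x hx => gr_Cl hq z hx
  obtain ⟨c1, hc1R, hc1⟩ := exists_total (FS_start hσ hz hgr)
  -- the exceptional vertices
  have hEfin : ({u | Inf G u ∧ ¬ {x | G.Adj u x ∧ (Inf G x ∨ Calm G X x)}.Infinite} ∪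
      (X ∩ {u | Inf G u})).Finite := h.union (hX.inter_of_left _)
  set E0 : Finset V := hEfin.toFinset with hE0
  have hEmem : ∀ u, u ∈ E0 ↔ (Inf G u ∧ ¬ {x | G.Adj u x ∧ (Inf G x ∨ Calm G X x)}.Infinite) ∨
      (u ∈ X ∧ Inf G u) := by
    intro u
    rw [hE0, Set.Finite.mem_toFinset]
    rfl
  have hE : ∀ w ∈ E0, Inf G w := by
    intro w hw
    rcases (hEmem w).1 hw with h1 | h1
    · exact h1.1
    · exact h1.2
  have hEO : ∀ w ∈ E0, {x | Calm G X x ∧ w ∈ Own G X f x}.Finite := by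
    intro w hw
    rcases (hEmem w).1 hw with h1 | h1
    · refine (Set.not_infinite.1 h1.2).subset ?_
      rintro x ⟨h2, h3⟩
      exact ⟨(own_sub h3).1.symm, Or.inr h2⟩
    · refine Set.finite_empty.subset ?_
      rintro x ⟨_, h3⟩
      exact absurd h1.1 (own_sub h3).2.2
  have hS : Stt G X f (G1 G X f σ z) E0 c1 := by
    refine ⟨hc1, fun u hu huE => ?_⟩
    have huX : u ∉ X := fun hX' => huE ((hEmem u).2 (Or.inr ⟨hX', hu⟩))
    have hinf : {x | G.Adj u x ∧ (Inf G x ∨ Calm G X x)}.Infinite := by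
      by_contra hn
      exact huE ((hEmem u).2 (Or.inl ⟨hu, hn⟩))
    refine (hz u hu huX hinf).mono ?_
    rintro v ⟨h1, h2⟩
    refine ⟨h1, ?_⟩
    have hvR : v ∈ {v | Inf G v ∨ Calm G X v} := by
      rcases h1.2 with h3 | h3
      · exact Or.inr h3.1
      · exact Or.inl h3.1
    rw [hc1R v hvR, hc1R u (Or.inl hu), hσ u hu huX]
    exact h2
  obtain ⟨c, hc, hrel, hhap⟩ := process hE hEO (fun v => inf_G1_iff hσ hz) _ c1 hS le_rfl
  refine ⟨c, unfriendly_of_sums ?_ ?_⟩
  · intro v hv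
    have hv1 : ¬ Inf (G1 G X f σ z) v := fun h => hv ((inf_G1_iff hσ hz).1 h)
    have he : 0 ≤ ∑ y ∈ nb (G1 G X f σ z) v, eps Set.univ c v y := by
      rw [← en_single]
      exact hc.1 {v} (by simpa using hv1)
    have hsub : nb (G1 G X f σ z) v ⊆ nb G v := by
      intro y hy
      rw [mem_nb _ hv1] at hy
      rw [mem_nb _ hv]
      exact hy.1
    by_cases hcalm : Calm G X v
    · set B : Finset V := (nb G v).filter (fun y => y ∈ Own G X f v) with hB
      have hBmem : ∀ y, y ∈ B ↔ y ∈ Own G X f v := by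
        intro y
        rw [hB, mem_filter, mem_nb _ hv]
        exact ⟨fun h => h.2, fun h => ⟨(own_sub h).1, h⟩⟩
      have hBcard : (Own G X f v).encard = (B.card : ℕ∞) := by
        rw [← Set.encard_coe_eq_coe_finsetCard]
        congr 1
        ext y
        rw [Finset.mem_coe, hBmem]
      have hNcard : (G.neighborSet v).ncard = (nb G v).card := by
        rw [← Set.ncard_coe_finset]
        congr 1
        ext y
        rw [Finset.mem_coe, mem_nb _ hv]
        rfl
      have hl : B.card ≤ 1 ∨ (B.card ≤ 2 ∧ Even (nb G v).card) := by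
        rcases own_light (G := G) (X := X) hf v with h1 | ⟨h1, h2⟩
        · left
          rw [hBcard] at h1
          exact_mod_cast h1
        · right
          rw [hBcard] at h1
          rw [hNcard] at h2
          exact ⟨by exact_mod_cast h1, h2⟩
      have hBD : ∀ y ∈ nb G v, y ∉ nb (G1 G X f σ z) v → y ∈ B := by
        intro y hy hyn
        rw [mem_nb _ hv] at hy
        rw [mem_nb _ hv1] at hyn
        rw [hBmem]
        by_contra hyB
        exact hyn ⟨hy, fun _ ho => absurd ho hyB, fun _ ho => absurd (own_inf ho) hv⟩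
      obtain ⟨s1, s2, s3⟩ := light_sum hsub hBD hl he
      by_cases hvU : v ∈ Unp G X f c
      · by_contra hneg
        refine hrel v hvU ?_
        rw [en_single]
        exact s3 (fun u hu => hvU.2.2 u ((hBmem u).1 hu)) (not_le.1 hneg)
      · by_cases hex : ∃ u ∈ Own G X f v, c u ≠ c v
        · obtain ⟨u, hu, hne⟩ := hex
          exact s1 ⟨u, (hBmem u).2 hu, hne⟩
        · push Not at hex
          refine s2 fun u hu => ?_
          exact absurd ⟨hcalm, ⟨u, (hBmem u).1 hu⟩, hex⟩ hvU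
    · have heq : nb (G1 G X f σ z) v = nb G v := by
        refine subset_antisymm hsub fun y hy => ?_
        rw [mem_nb _ hv] at hy
        rw [mem_nb _ hv1]
        exact ⟨hy, fun h1 _ => absurd h1 hcalm, fun _ ho => absurd (own_inf ho) hv⟩
      rw [← heq]
      exact he
  · intro u hu
    by_cases huE : u ∈ E0
    · refine (hhap u huE).mono ?_
      rintro y ⟨h2, h3⟩
      exact ⟨h2.1, h3⟩
    · refine (hc.2 u hu huE).mono ?_
      rintro y ⟨h1, h4⟩
      exact ⟨h1.1, h4⟩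

end UnfT
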