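import Pool.Agent.Work.MP_1aab6d_co_tu.Defs
import Pool.Agent.Work.MP_1aab6d_co_h50.Relax
import Pool.Agent.Work.MP_1aab6d_co.Max

/-!
# Owned edges, and the selection of ground states of the calm components
-/

set_option autoImplicit false

namespace UnfT

open Finset Classical Unf

variable {V : Type*}

lemma eps_univ (c : V → Bool) (x y : V) :
    eps Set.univ c x y = if c y ≠ c x then 1 else -1 := by simp [eps]

lemma bool_ne {b : Bool} (h : (!b) = b) : False := by cases b <;> simp at h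

section defs

variable (G : SimpleGraph V) (X : Set V) (f : V → ℕ)

/-- The owners of `v`. -/
def Own (v : V) : Set V :=
  {w | w ∈ IN G X v ∧ (Light G X v ∨ ∀ w' ∈ IN G X v, f w ≤ f w')}

/-- The edges between calm vertices and between calm vertices and infinite-degree vertices in
`X`. -/
def H0 : SimpleGraph V where
  Adj a b := G.Adj a b ∧ ((Calm G X a ∧ Calm G X b) ∨ (Calm G X a ∧ Inf G b ∧ b ∈ X) ∨
    (Calm G X b ∧ Inf G a ∧ a ∈ X))
  symm := ⟨fun _ _ h => ⟨h.1.symm, by tauto⟩⟩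
  loopless := ⟨fun a h => G.loopless.irrefl a h.1⟩

/-- The graph without the owned edges of the calm vertices. -/
def Gk : SimpleGraph V where
  Adj a b := G.Adj a b ∧ ¬ (Calm G X a ∧ b ∈ Own G X f a) ∧ ¬ (Calm G X b ∧ a ∈ Own G X f b)
  symm := ⟨fun _ _ h => ⟨h.1.symm, h.2.2, h.2.1⟩⟩
  loopless := ⟨fun a h => G.loopless.irrefl a h.1⟩

/-- The kept parameters of a component. -/
def Par (C : Set V) : Set V := {j | ∃ v ∈ C, j ∈ IN G X v ∧ j ∉ Own G X f v}

end defs

variable {G : SimpleGraph V} {X : Set V} {f : V → ℕ}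

lemma Calm.of_mem {x y : V} (hx : Calm G X x) (hy : y ∈ comp G x) : Calm G X y := by
  refine ⟨comp_not_inf hx.1 hy, ?_⟩
  rw [comp_eq hx.1 hy]
  exact hx.2

lemma Calm.of_adj {x y : V} (hx : Calm G X x) (hxy : G.Adj x y) (hy : ¬ Inf G y) :
    Calm G X y :=
  hx.of_mem (Relation.ReflTransGen.single ⟨hxy, hy, Set.notMem_empty _⟩)

lemma mem_comp_of_adj {x y : V} (hxy : G.Adj x y) (hy : ¬ Inf G y) : y ∈ comp G x :=
  Relation.ReflTransGen.single ⟨hxy, hy, Set.notMem_empty _⟩

lemma Inf.of_le {G' : SimpleGraph V} (hle : ∀ a b, G'.Adj a b → G.Adj a b) {v : V}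
    (h : Inf G' v) : Inf G v := Set.Infinite.mono (fun y hy => hle v y hy) h

lemma H0_le (a b : V) (h : (H0 G X).Adj a b) : G.Adj a b := h.1

lemma Gk_le (a b : V) (h : (Gk G X f).Adj a b) : G.Adj a b := h.1

lemma own_sub {v w : V} (h : w ∈ Own G X f v) : w ∈ IN G X v := h.1

lemma own_inf {v w : V} (h : w ∈ Own G X f v) : Inf G w := h.1.2.1

lemma own_light (hf : Function.Injective f) (v : V) :
    (Own G X f v).encard ≤ 1 ∨
      ((Own G X f v).encard ≤ 2 ∧ Even (G.neighborSet v).ncard) := by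
  by_cases hl : Light G X v
  · have hsub : Own G X f v ⊆ IN G X v := fun w hw => hw.1
    rcases hl with h | ⟨h, h'⟩
    · exact Or.inl ((Set.encard_le_encard hsub).trans h)
    · exact Or.inr ⟨(Set.encard_le_encard hsub).trans h, h'⟩
  · left
    rw [Set.encard_le_one_iff]
    intro a b ha hb
    have h1 : f a ≤ f b := (ha.2.resolve_left hl) b hb.1
    have h2 : f b ≤ f a := (hb.2.resolve_left hl) a ha.1
    exact hf (le_antisymm h1 h2)

lemma kept_nonlight {v j : V} (h1 : j ∈ IN G X v) (h2 : j ∉ Own G X f v) : ¬ Light G X v :=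
  fun h => h2 ⟨h1, Or.inl h⟩

/-- The component-wise ground states. -/
def Gr (Γ : SimpleGraph V) (C : Set V) (c : V → Bool) : Prop :=
  ∀ Q : Finset V, (∀ x ∈ Q, x ∈ C) → 0 ≤ en Γ (eps Set.univ c) Q

/-- Repair inside a set. -/
theorem fix_in {Γ : SimpleGraph V} {C : Set V} (hC : ∀ x ∈ C, ¬ Inf Γ x) {c : V → Bool} (M : ℤ)
    (h : ∀ Q : Finset V, (∀ x ∈ Q, x ∈ C) → -M ≤ en Γ (eps Set.univ c) Q) :
    ∃ Q : Finset V, (∀ x ∈ Q, x ∈ C) ∧ Gr Γ C (flp c Q) := by
  obtain ⟨m, ⟨Q, hQ, hQm⟩, hmin⟩ := Int.exists_least_of_bdd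
    (P := fun z => ∃ Q : Finset V, (∀ x ∈ Q, x ∈ C) ∧ en Γ (eps Set.univ c) Q = z)
    ⟨-M, by rintro z ⟨Q, hQ, rfl⟩; exact h Q hQ⟩ ⟨_, ∅, by simp, rfl⟩
  refine ⟨Q, hQ, fun Q' hQ' => ?_⟩
  rw [en_flp c Q Q' (fun x hx => hC x (hQ x hx)) (fun x hx => hC x (hQ' x hx)), hQm]
  have := hmin _ ⟨symmDiff Q Q', ?_, rfl⟩
  · linarith
  · intro x hx
    rw [Finset.mem_symmDiff] at hx
    rcases hx with hx | hx
    · exact hQ x hx.1
    · exact hQ' x hx.1

/-- The colouring used for the energy: `φ` on calm vertices and on the vertices of infinite degree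
in `X`, and `z` elsewhere. -/
noncomputable def base (G : SimpleGraph V) (X : Set V) (φ z : V → Bool) : V → Bool := fun v =>
  if Calm G X v ∨ (Inf G v ∧ v ∈ X) then φ v else z v

/-- The bounded defect of the base colouring on a calm component. -/
lemma base_defect {φ : V → Bool} (hφ : TM (H0 G X) φ) {x0 : V} (hx0 : Calm G X x0)
    (z : V → Bool) (Q : Finset V) (hQ : ∀ x ∈ Q, x ∈ comp G x0) :
    -(∑ x ∈ hx0.2.toFinset, ((nb G x).card : ℤ))
      ≤ en (Gk G X f) (eps Set.univ (base G X φ z)) Q := by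
  have hcalm : ∀ x ∈ Q, Calm G X x := fun x hx => hx0.of_mem (hQ x hx)
  have hG : ∀ x ∈ Q, ¬ Inf G x := fun x hx => (hcalm x hx).1
  have hk : ∀ x ∈ Q, ¬ Inf (Gk G X f) x := fun x hx h => hG x hx (Inf.of_le Gk_le h)
  have hH : ∀ x ∈ Q, ¬ Inf (H0 G X) x := fun x hx h => hG x hx (Inf.of_le H0_le h)
  have h0 := hφ Q fun x hx => ⟨Set.mem_univ _, hH x hx⟩
  have key : ∀ x ∈ Q, ∑ y ∈ nb (H0 G X) x \ Q, eps Set.univ φ x y
      - (if ¬ Light G X x then ((nb G x).card : ℤ) else 0)
      ≤ ∑ y ∈ nb (Gk G X f) x \ Q, eps Set.univ (base G X φ z) x y := by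
    intro x hx
    have hcx := hcalm x hx
    have hbx : base G X φ z x = φ x := if_pos (Or.inl hcx)
    have hnbH : ∀ y, (H0 G X).Adj x y → (Calm G X y ∨ (Inf G y ∧ y ∈ X)) := by
      intro y hy
      rcases hy.2 with h | h | h
      · exact Or.inl h.2
      · exact Or.inr h.2
      · exact Or.inl h.1
    have h1 : ∑ y ∈ nb (H0 G X) x \ Q, eps Set.univ φ x y
        = ∑ y ∈ nb (H0 G X) x \ Q, eps Set.univ (base G X φ z) x y := by
      refine Finset.sum_congr rfl fun y hy => ?_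
      rw [mem_sdiff, mem_nb _ (hH x hx)] at hy
      have hby : base G X φ z y = φ y := if_pos (hnbH y hy.1)
      unfold eps
      rw [hbx, hby]
    rw [h1]
    have hsub : nb (H0 G X) x \ Q ⊆ nb (Gk G X f) x \ Q := by
      intro y hy
      rw [mem_sdiff, mem_nb _ (hH x hx)] at hy
      rw [mem_sdiff, mem_nb _ (hk x hx)]
      refine ⟨⟨hy.1.1, ?_, ?_⟩, hy.2⟩
      · rintro ⟨_, h⟩
        rcases hnbH y hy.1 with h2 | h2
        · exact h2.1 (own_inf h)
        · exact h.1.2.2 h2.2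
      · rintro ⟨_, h⟩
        exact hG x hx (own_inf h)
    rw [← Finset.sum_sdiff hsub]
    have h2 : -(if ¬ Light G X x then ((nb G x).card : ℤ) else 0) ≤
        ∑ y ∈ (nb (Gk G X f) x \ Q) \ (nb (H0 G X) x \ Q), eps Set.univ (base G X φ z) x y := by
      by_cases hxl : Light G X x
      · rw [if_neg (not_not.2 hxl), neg_zero]
        refine le_of_eq (Finset.sum_eq_zero fun y hy => ?_).symm
        exfalso
        rw [mem_sdiff, mem_sdiff, mem_sdiff, mem_nb _ (hk x hx), mem_nb _ (hH x hx)] at hy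
        obtain ⟨⟨⟨ha, hb, _⟩, hd⟩, he⟩ := hy
        refine he ⟨⟨ha, ?_⟩, hd⟩
        by_cases hyI : Inf G y
        · by_cases hyX : y ∈ X
          · exact Or.inr (Or.inl ⟨hcx, hyI, hyX⟩)
          · exact absurd ⟨hcx, ⟨ha, hyI, hyX⟩, Or.inl hxl⟩ hb
        · exact Or.inl ⟨hcx, hcx.of_adj ha hyI⟩
      · rw [if_pos hxl]
        have h3 : ∑ _y ∈ (nb (Gk G X f) x \ Q) \ (nb (H0 G X) x \ Q), (-1 : ℤ)
            ≤ ∑ y ∈ (nb (Gk G X f) x \ Q) \ (nb (H0 G X) x \ Q),
              eps Set.univ (base G X φ z) x y :=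
          Finset.sum_le_sum fun y _ => neg_one_le_eps _ _ _ _
        refine le_trans ?_ h3
        rw [Finset.sum_const, nsmul_eq_mul, mul_neg, mul_one, neg_le_neg_iff]
        norm_cast
        refine Finset.card_le_card fun y hy => ?_
        rw [mem_sdiff, mem_sdiff, mem_nb _ (hk x hx)] at hy
        rw [mem_nb _ (hG x hx)]
        exact hy.1.1.1
    linarith
  have h3 := Finset.sum_le_sum key
  rw [Finset.sum_sub_distrib] at h3
  have h4 : ∑ x ∈ Q, (if ¬ Light G X x then ((nb G x).card : ℤ) else 0)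
      ≤ ∑ x ∈ hx0.2.toFinset, ((nb G x).card : ℤ) := by
    rw [← Finset.sum_filter]
    refine Finset.sum_le_sum_of_subset_of_nonneg ?_ ?_
    · intro x hx
      rw [mem_filter] at hx
      exact hx0.2.mem_toFinset.2 ⟨hQ x hx.1, hx.2⟩
    · intro x _ _
      positivity
  unfold en at h0 ⊢
  linarith

/-- The choice of the finite modification. -/
theorem exists_mod {φ : V → Bool} (hφ : TM (H0 G X) φ) :
    ∃ q : Set V → (V → Bool) → Finset V, ∀ x, Calm G X x → ∀ z : V → Bool,
      (∀ y ∈ q (comp G x) z, y ∈ comp G x) ∧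
        Gr (Gk G X f) (comp G x) (flp (base G X φ z) (q (comp G x) z)) := by
  have h : ∀ (C : Set V) (z : V → Bool), ∃ Q : Finset V, ∀ x, Calm G X x → C = comp G x →
      (∀ y ∈ Q, y ∈ comp G x) ∧ Gr (Gk G X f) (comp G x) (flp (base G X φ z) Q) := by
    intro C z
    by_cases hC : ∃ x, Calm G X x ∧ C = comp G x
    · obtain ⟨x0, hx0, hCx⟩ := hC
      obtain ⟨Q, hQ1, hQ2⟩ := fix_in (Γ := Gk G X f) (C := comp G x0)
        (fun y hy h => (hx0.of_mem hy).1 (Inf.of_le Gk_le h)) _ (base_defect (f := f) hφ hx0 z)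
      refine ⟨Q, fun x hx hCx' => ?_⟩
      rw [← hCx', hCx]
      exact ⟨hQ1, hQ2⟩
    · refine ⟨∅, fun x hx hCx => absurd ⟨x, hx, hCx⟩ hC⟩
  choose q hq using h
  exact ⟨q, fun x hx z => hq (comp G x) z x hx rfl⟩

/-- Parameters restricted to a set. -/
noncomputable def res (W : Set V) (z : V → Bool) : V → Bool := fun v => if v ∈ W then z v else false

lemma res_congr {W : Set V} {z z' : V → Bool} (h : ∀ v ∈ W, z v = z' v) : res W z = res W z' := by
  funext v
  unfold res
  split_ifs with hv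
  · exact h v hv
  · rfl

/-- The selected colouring. -/
noncomputable def Cl (G : SimpleGraph V) (X : Set V) (f : V → ℕ) (φ : V → Bool)
    (q : Set V → (V → Bool) → Finset V) (z : V → Bool) : V → Bool := fun v =>
  if Calm G X v then flp φ (q (comp G v) (res (Par G X f (comp G v)) z)) v
  else if Inf G v ∧ v ∈ X then φ v else z v

variable {φ : V → Bool} {q : Set V → (V → Bool) → Finset V}

lemma Cl_calm {z : V → Bool} {v : V} (hv : Calm G X v) :
    Cl G X f φ q z v = flp φ (q (comp G v) (res (Par G X f (comp G v)) z)) v := if_pos hv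

lemma Cl_inf {z : V → Bool} {v : V} (hv : Inf G v) (hvX : v ∉ X) : Cl G X f φ q z v = z v := by
  unfold Cl
  rw [if_neg (fun h : Calm G X v => h.1 hv), if_neg (fun h => hvX h.2)]

lemma Cl_infX {z : V → Bool} {v : V} (hv : Inf G v) (hvX : v ∈ X) : Cl G X f φ q z v = φ v := by
  unfold Cl
  rw [if_neg (fun h : Calm G X v => h.1 hv), if_pos ⟨hv, hvX⟩]

/-- The selected colouring is a ground state on each calm component. -/
lemma gr_Cl (hq : ∀ x, Calm G X x → ∀ z : V → Bool,
      (∀ y ∈ q (comp G x) z, y ∈ comp G x) ∧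
        Gr (Gk G X f) (comp G x) (flp (base G X φ z) (q (comp G x) z)))
    (z : V → Bool) {x : V} (hx : Calm G X x) :
    Gr (Gk G X f) (comp G x) (Cl G X f φ q z) := by
  intro Q hQ
  set W := Par G X f (comp G x) with hW
  set T := q (comp G x) (res W z) with hT
  have h1 := (hq x hx (res W z)).2 Q hQ
  refine h1.trans (le_of_eq (en_congr fun y hy w hw _ => ?_))
  have hyC : y ∈ comp G x := hQ y hy
  have hycalm : Calm G X y := hx.of_mem hyC
  have hk : ¬ Inf (Gk G X f) y := fun h => hycalm.1 (Inf.of_le Gk_le h)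
  rw [mem_nb _ hk] at hw
  have hTC := (hq x hx (res W z)).1
  -- the colour of a vertex of the component
  have hcol : ∀ v ∈ comp G x, flp (base G X φ (res W z)) T v = Cl G X f φ q z v := by
    intro v hv
    have hvcalm : Calm G X v := hx.of_mem hv
    rw [Cl_calm hvcalm, comp_eq hx.1 hv]
    have hb : base G X φ (res W z) v = φ v := if_pos (Or.inl hvcalm)
    by_cases hvT : v ∈ T
    · rw [flp_of_mem hvT, flp_of_mem hvT, hb]
    · rw [flp_of_not_mem hvT, flp_of_not_mem hvT, hb]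
  have hcw : flp (base G X φ (res W z)) T w = Cl G X f φ q z w := by
    by_cases hwI : Inf G w
    · have hwT : w ∉ T := fun h => (hx.of_mem (hTC w h)).1 hwI
      rw [flp_of_not_mem hwT]
      by_cases hwX : w ∈ X
      · rw [Cl_infX hwI hwX]
        exact if_pos (Or.inr ⟨hwI, hwX⟩)
      · rw [Cl_inf hwI hwX]
        have : base G X φ (res W z) w = res W z w := by
          refine if_neg ?_
          rintro (h | h)
          · exact h.1 hwI
          · exact hwX h.2
        rw [this]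
        refine if_pos ⟨y, hyC, ⟨hw.1, hwI, hwX⟩, fun ho => ?_⟩
        exact hw.2.1 ⟨hycalm, ho⟩
    · refine hcol w ?_
      have h2 : w ∈ comp G y := mem_comp_of_adj hw.1 hwI
      rw [comp_eq hx.1 hyC] at h2
      exact h2
  unfold eps
  rw [hcol y hyC, hcw]

/-- Splitting the energy over components. -/
theorem gr_all {Γ : SimpleGraph V} (hΓ : ∀ a b, Γ.Adj a b → G.Adj a b) {c : V → Bool}
    (h : ∀ x, Calm G X x → Gr Γ (comp G x) c) :
    ∀ n : ℕ, ∀ Q : Finset V, Q.card ≤ n → (∀ x ∈ Q, Calm G X x) → 0 ≤ en Γ (eps Set.univ c) Q := by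
  intro n
  induction n with
  | zero =>
    intro Q hQ _
    have : Q = ∅ := Finset.card_eq_zero.1 (Nat.le_zero.1 hQ)
    rw [this, en_empty]
  | succ n ih =>
    intro Q hQ hcalm
    rcases Q.eq_empty_or_nonempty with rfl | ⟨x, hx⟩
    · rw [en_empty]
    set Q1 := Q.filter (fun y => y ∈ comp G x) with hQ1
    set Q2 := Q.filter (fun y => ¬ y ∈ comp G x) with hQ2
    have hd : Disjoint Q1 Q2 := by
      rw [Finset.disjoint_left]
      intro y h1 h2
      rw [hQ1, mem_filter] at h1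
      rw [hQ2, mem_filter] at h2
      exact h2.2 h1.2
    have hU : Q = Q1 ∪ Q2 := (Finset.filter_union_filter_not_eq (fun y => y ∈ comp G x) Q).symm
    have hx1 : x ∈ Q1 := by
      rw [hQ1, mem_filter]
      exact ⟨hx, mem_comp_self x⟩
    have hcard : Q2.card ≤ n := by
      have h1 : Q1.card + Q2.card = Q.card := by
        rw [← Finset.card_union_of_disjoint hd, ← hU]
      have h2 : 0 < Q1.card := Finset.card_pos.2 ⟨x, hx1⟩
      omega
    have hnadj : ∀ a ∈ Q1, ∀ b ∈ Q2, ¬ Γ.Adj a b := by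
      intro a ha b hb hab
      rw [hQ1, mem_filter] at ha
      rw [hQ2, mem_filter] at hb
      have h1 : b ∈ comp G a := mem_comp_of_adj (hΓ _ _ hab) (hcalm b hb.1).1
      rw [comp_eq (hcalm x hx).1 ha.2] at h1
      exact hb.2 h1
    have hnI : ∀ a ∈ Q, ¬ Inf Γ a := fun a ha hI => (hcalm a ha).1 (Inf.of_le hΓ hI)
    have hcr : ∀ (P P' : Finset V), (∀ a ∈ P, ∀ b ∈ P', ¬ Γ.Adj a b) → (∀ a ∈ P, a ∈ Q) →
        cr Γ (eps Set.univ c) P P' = 0 := by
      intro P P' hPP hPQ
      unfold cr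
      refine Finset.sum_eq_zero fun a ha => Finset.sum_eq_zero fun b hb => ?_
      exfalso
      rw [mem_inter, mem_nb _ (hnI a (hPQ a ha))] at hb
      exact hPP a ha b hb.2 hb.1
    rw [hU, en_union _ hd, hcr Q1 Q2 hnadj (fun a ha => (mem_filter.1 ha).1),
      hcr Q2 Q1 (fun a ha b hb hab => hnadj b hb a ha hab.symm) (fun a ha => (mem_filter.1 ha).1)]
    have e1 := h x (hcalm x hx) Q1 (fun y hy => (mem_filter.1 hy).2)
    have e2 := ih Q2 hcard (fun y hy => hcalm y (mem_filter.1 hy).1)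
    linarith

end UnfT
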